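import Pool.Agent.FD4632.Lower
import Pool.Agent.FD4632.IvData

/-!
# The duality of `p`-normed flow indices across `p = 2` fails

There is a (planar, simple, 3-connected) graph `G` with 13 vertices and 21 edges such that
`φ_{2,q}(G) ≤ 2.1464` for every `q ∈ [2, ∞]`, while `φ_{2,9/5}(G) ≥ 2.1465`.
-/

set_option autoImplicit false

open scoped ENNReal

namespace Pool.Agent.Results.MP_fd4632_co.DualityFails

/-- A multigraph without loops on the vertex set `V` with edge set `E`: every edge has an unordered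
pair of distinct ends; parallel edges are allowed. -/
structure Multigraph (V E : Type) where
  /-- the unordered pair of ends of an edge -/
  ends : E → Sym2 V
  /-- there are no loops -/
  loopless : ∀ e, ¬ (ends e).IsDiag

/-- An orientation of a multigraph: every edge gets a tail and a head. -/
structure Orientation {V E : Type} (G : Multigraph V E) where
  /-- the tail of an edge -/
  tail : E → V
  /-- the head of an edge -/
  head : E → V
  /-- tail and head are the ends -/
  ends_eq : ∀ e, G.ends e = s(tail e, head e)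

/-- The edge `e` is a bridge if its ends are not joined by a walk in `G - e`. -/
def Multigraph.IsBridge {V E : Type} (G : Multigraph V E) (e : E) : Prop :=
  ∃ u v, G.ends e = s(u, v) ∧
    ¬ Relation.ReflTransGen (fun x y => ∃ e', e' ≠ e ∧ G.ends e' = s(x, y)) u v

/-- A multigraph is bridgeless if no edge is a bridge. -/
def Multigraph.Bridgeless {V E : Type} (G : Multigraph V E) : Prop := ∀ e, ¬ G.IsBridge e

open Classical in
/-- `f : E → ℝ^d` is conserved at every vertex with respect to the orientation `D`: the sum over the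
edges directed out of `v` equals the sum over the edges directed into `v`. -/
def IsConserved {V E : Type} [Fintype E] {G : Multigraph V E} (D : Orientation G) {d : ℕ}
    (f : E → Fin d → ℝ) : Prop :=
  ∀ v, ∑ e ∈ Finset.univ.filter (fun e => D.tail e = v), f e =
    ∑ e ∈ Finset.univ.filter (fun e => D.head e = v), f e

/-- The pair `(D, f)` is an `(r, d, p)`-NZF of `G`: all values of `f` are nonzero, `f` is a flow with
respect to `D`, and `1 ≤ ‖f e‖_p ≤ r - 1` for every edge `e`. -/
def IsNZF {V E : Type} [Fintype E] {G : Multigraph V E} {d : ℕ} (r : ℝ) (p : ℝ≥0∞)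
    (D : Orientation G) (f : E → Fin d → ℝ) : Prop :=
  (∀ e, f e ≠ 0) ∧ IsConserved D f ∧
    ∀ e, 1 ≤ ‖(WithLp.toLp p (f e) : PiLp p (fun _ : Fin d => ℝ))‖ ∧
      ‖(WithLp.toLp p (f e) : PiLp p (fun _ : Fin d => ℝ))‖ ≤ r - 1

/-- The flow index `φ_{d,p}(G)`: the infimum of all real `r ≥ 2` such that `G` has an
`(r, d, p)`-NZF. -/
noncomputable def flowIndex {V E : Type} [Fintype E] (G : Multigraph V E) (d : ℕ) (p : ℝ≥0∞) : ℝ :=
  sInf {r : ℝ | 2 ≤ r ∧ ∃ (D : Orientation G) (f : E → Fin d → ℝ), IsNZF r p D f}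

/-! ### The graph -/

/-- tails of the reference orientation -/
def tl : Fin 21 → Fin 13 := ![0, 2, 1, 10, 11, 0, 3, 5, 7, 4, 6, 8, 3, 11, 5, 12, 7, 9, 2, 12, 9]

/-- heads of the reference orientation -/
def hd : Fin 21 → Fin 13 := ![10, 1, 0, 2, 10, 11, 4, 3, 6, 8, 5, 7, 11, 4, 10, 6, 12, 1, 12, 9, 8]

/-- the graph -/
def G0 : Multigraph (Fin 13) (Fin 21) where
  ends e := s(tl e, hd e)
  loopless := by decide

/-- the reference orientation -/
def D0 : Orientation G0 where
  tail := tl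
  head := hd
  ends_eq _ := rfl

/-! ### It is bridgeless -/

/-- a walk from `u` through the vertices of the list avoiding the edge `e` -/
def wk (e : Fin 21) : Fin 13 → List (Fin 13) → Fin 13 → Bool
  | u, [], v => decide (u = v)
  | u, w :: l, v => decide (∃ e', e' ≠ e ∧ s(tl e', hd e') = s(u, w)) && wk e w l v

theorem wk_sound (e : Fin 21) : ∀ (l : List (Fin 13)) (u v : Fin 13), wk e u l v = true →
    Relation.ReflTransGen (fun x y => ∃ e', e' ≠ e ∧ G0.ends e' = s(x, y)) u v := by
  intro l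
  induction l with
  | nil =>
    intro u v h
    have h1 : u = v := of_decide_eq_true h
    rw [h1]
  | cons w l ih =>
    intro u v h
    unfold wk at h
    rw [Bool.and_eq_true, decide_eq_true_eq] at h
    exact Relation.ReflTransGen.head h.1 (ih w v h.2)

theorem wk_rev (e : Fin 21) (u v : Fin 13)
    (h : Relation.ReflTransGen (fun x y => ∃ e', e' ≠ e ∧ G0.ends e' = s(x, y)) u v) :
    Relation.ReflTransGen (fun x y => ∃ e', e' ≠ e ∧ G0.ends e' = s(x, y)) v u := by
  induction h with
  | refl => exact Relation.ReflTransGen.refl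
  | tail _ hbc ih =>
    obtain ⟨e', a, b⟩ := hbc
    exact Relation.ReflTransGen.head ⟨e', a, by rw [b, Sym2.eq_swap]⟩ ih

/-- walks around the edges -/
def paths : Fin 21 → List (Fin 13) := ![[11, 10], [10, 0, 1], [2, 10, 0], [0, 1, 2], [0, 10],
  [10, 11], [11, 4], [10, 11, 3], [12, 6], [3, 5, 6, 7, 8], [12, 2, 10, 5], [9, 12, 7], [4, 11],
  [3, 4], [3, 11, 10], [7, 6], [6, 12], [12, 2, 1], [1, 9, 12], [7, 8, 9], [12, 7, 8]]

theorem paths_ok : ∀ e : Fin 21, wk e (tl e) (paths e) (hd e) = true := by decide +kernel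

theorem G0_bridgeless : G0.Bridgeless := by
  rintro e ⟨u, v, h1, h2⟩
  apply h2
  have h3 := wk_sound e _ _ _ (paths_ok e)
  have h4 : s(tl e, hd e) = s(u, v) := h1
  rw [Sym2.eq_iff] at h4
  rcases h4 with ⟨rfl, rfl⟩ | ⟨rfl, rfl⟩
  · exact h3
  · exact wk_rev e _ _ h3

/-! ### Lower bound -/

open FD4632

theorem wsum_eq (g f : ℕ → ℝ) : ∀ (l : List (ℕ × ℕ)) (n : ℕ), wsum g f l n =
    ∑ i : Fin l.length, (g (l.get i).1 - g (l.get i).2) * f (n + i) := by
  intro l
  induction l with
  | nil => intro n; simp [wsum]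
  | cons e l ih =>
    intro n
    rw [wsum, ih (n + 1)]
    have : ∑ i : Fin (e :: l).length, (g ((e :: l).get i).1 - g ((e :: l).get i).2) * f (n + i) =
      (g e.1 - g e.2) * f n + ∑ i : Fin l.length, (g (l.get i).1 - g (l.get i).2) * f (n + 1 + i) := by
      show ∑ i : Fin (l.length + 1), _ = _
      rw [Fin.sum_univ_succ]
      congr 1
      apply Finset.sum_congr rfl
      intro i _
      have : n + ((Fin.succ i : Fin (l.length + 1)) : ℕ) = n + 1 + i := by
        rw [Fin.val_succ]; omega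
      rw [this]
      rfl
    rw [this]

theorem es_get (e : Fin 21) : es.get e = ((tl e : ℕ), (hd e : ℕ)) := by
  fin_cases e <;> rfl

theorem wsum_es (g f : ℕ → ℝ) : wsum g f es 0 =
    ∑ e : Fin 21, (g (tl e) - g (hd e)) * f e := by
  rw [wsum_eq]
  show ∑ i : Fin 21, (g (es.get i).1 - g (es.get i).2) * f (0 + i) = _
  apply Finset.sum_congr rfl
  intro i _
  rw [es_get, Nat.zero_add]

open Classical in
theorem sum_potential {V E : Type} [Fintype V] [Fintype E] {G : Multigraph V E} (D : Orientation G)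
    {d : ℕ} (f : E → Fin d → ℝ) (hf : IsConserved D f) (i : Fin d) (g : V → ℝ) :
    ∑ e, (g (D.tail e) - g (D.head e)) * f e i = 0 := by
  have h1 : ∑ e, g (D.tail e) * f e i = ∑ v, ∑ e ∈ Finset.univ.filter (fun e => D.tail e = v),
      g (D.tail e) * f e i := (Finset.sum_fiberwise _ _ _).symm
  have h2 : ∑ e, g (D.head e) * f e i = ∑ v, ∑ e ∈ Finset.univ.filter (fun e => D.head e = v),
      g (D.head e) * f e i := (Finset.sum_fiberwise _ _ _).symm
  have h3 : ∀ v, ∑ e ∈ Finset.univ.filter (fun e => D.tail e = v), g (D.tail e) * f e i =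
      ∑ e ∈ Finset.univ.filter (fun e => D.head e = v), g (D.head e) * f e i := by
    intro v
    have a1 : ∑ e ∈ Finset.univ.filter (fun e => D.tail e = v), g (D.tail e) * f e i =
        g v * ∑ e ∈ Finset.univ.filter (fun e => D.tail e = v), f e i := by
      rw [Finset.mul_sum]
      apply Finset.sum_congr rfl
      intro e he
      rw [(Finset.mem_filter.mp he).2]
    have a2 : ∑ e ∈ Finset.univ.filter (fun e => D.head e = v), g (D.head e) * f e i =
        g v * ∑ e ∈ Finset.univ.filter (fun e => D.head e = v), f e i := by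
      rw [Finset.mul_sum]
      apply Finset.sum_congr rfl
      intro e he
      rw [(Finset.mem_filter.mp he).2]
    rw [a1, a2]
    have := congrFun (hf v) i
    rw [Finset.sum_apply, Finset.sum_apply] at this
    rw [this]
  calc ∑ e, (g (D.tail e) - g (D.head e)) * f e i
      = ∑ e, g (D.tail e) * f e i - ∑ e, g (D.head e) * f e i := by
        rw [← Finset.sum_sub_distrib]
        apply Finset.sum_congr rfl
        intro e _
        ring
    _ = 0 := by
        rw [h1, h2, sub_eq_zero]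
        exact Finset.sum_congr rfl fun v _ => h3 v

theorem toReal_95 : (9 / 5 : ℝ≥0∞).toReal = 9 / 5 := by
  rw [ENNReal.toReal_div]
  norm_num

theorem norm_95 (x : Fin 2 → ℝ) :
    ‖(WithLp.toLp (9 / 5) x : PiLp (9 / 5) (fun _ : Fin 2 => ℝ))‖ = nrm (x 0) (x 1) := by
  rw [PiLp.norm_eq_sum (by rw [toReal_95]; norm_num), toReal_95, Fin.sum_univ_two]
  unfold nrm
  norm_num

/-- the sign of the orientation `D` at `e` relative to the reference orientation -/
noncomputable def sgn (D : Orientation G0) (e : Fin 21) : ℝ := if D.tail e = tl e then 1 else -1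

theorem sgn_spec (D : Orientation G0) (e : Fin 21) (g : ℕ → ℝ) :
    (g (tl e) - g (hd e)) * sgn D e = g (D.tail e) - g (D.head e) := by
  have h := D.ends_eq e
  have h1 : s(tl e, hd e) = s(D.tail e, D.head e) := h
  rw [Sym2.eq_iff] at h1
  unfold sgn
  rcases h1 with ⟨a, b⟩ | ⟨a, b⟩
  · rw [if_pos a.symm, a, b, mul_one]
  · have hne : D.tail e ≠ tl e := by
      intro hc
      have := G0.loopless e
      rw [h, Sym2.mk_isDiag_iff] at this
      exact this (hc.trans a)
    rw [if_neg hne, a, b]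
    ring

theorem nrm_sgn (D : Orientation G0) (e : Fin 21) (x y : ℝ) :
    nrm (sgn D e * x) (sgn D e * y) = nrm x y := by
  unfold sgn
  split_ifs
  · rw [one_mul, one_mul]
  · rw [neg_one_mul, neg_one_mul, nrm_neg_left, nrm_neg_right]

/-- the value of `f` on edge `n`, reoriented, as a function on the natural numbers -/
noncomputable def ext (D : Orientation G0) (f : Fin 21 → Fin 2 → ℝ) (i : Fin 2) (n : ℕ) : ℝ :=
  if h : n < 21 then sgn D ⟨n, h⟩ * f ⟨n, h⟩ i else 0

theorem ext_val (D : Orientation G0) (f : Fin 21 → Fin 2 → ℝ) (i : Fin 2) (e : Fin 21) :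
    ext D f i e = sgn D e * f e i := by
  unfold ext
  rw [dif_pos e.isLt]

theorem ext_cons (D : Orientation G0) (f : Fin 21 → Fin 2 → ℝ) (hf : IsConserved D f) (i : Fin 2)
    (g : ℕ → ℝ) : wsum g (ext D f i) es 0 = 0 := by
  rw [wsum_es, ← sum_potential D f hf i (fun v => g v)]
  apply Finset.sum_congr rfl
  intro e _
  rw [ext_val, ← mul_assoc, sgn_spec]

theorem lower (r : ℝ) (D : Orientation G0) (f : Fin 21 → Fin 2 → ℝ) (h : IsNZF r (9 / 5) D f) :
    4293 / 2000 ≤ r := by
  by_contra hr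
  push Not at hr
  obtain ⟨_, hf, hn⟩ := h
  refine no_flow (ext D f 0) (ext D f 1) (ext_cons D f hf 0) (ext_cons D f hf 1) ?_ ?_
  · intro n hn'
    have h1 := (hn ⟨n, hn'⟩).1
    rw [norm_95] at h1
    have e0 := ext_val D f 0 ⟨n, hn'⟩
    have e1 := ext_val D f 1 ⟨n, hn'⟩
    simp only at e0 e1
    rw [e0, e1, nrm_sgn]
    exact h1
  · intro n hn'
    have h1 := (hn ⟨n, hn'⟩).2
    rw [norm_95] at h1
    have e0 := ext_val D f 0 ⟨n, hn'⟩
    have e1 := ext_val D f 1 ⟨n, hn'⟩
    simp only at e0 e1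
    rw [e0, e1, nrm_sgn]
    linarith

/-! ### Upper bound -/

/-- first ends of the dual edges -/
def ea : Fin 21 → ℕ := ![0, 0, 0, 0, 1, 1, 2, 2, 2, 2, 2, 2, 3, 3, 4, 5, 5, 6, 6, 6, 7]

/-- second ends of the dual edges -/
def eb : Fin 21 → ℕ := ![1, 6, 7, 8, 4, 7, 3, 4, 5, 7, 8, 9, 4, 7, 8, 8, 9, 7, 8, 9, 9]

theorem eh_mem : ∀ e : Fin 21, (ea e, eb e) ∈ eh := by decide +kernel

/-- differences of potentials of the dual graph are conserved -/
theorem dual_cons (X : ℕ → ℝ) (v : Fin 13) :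
    ∑ e : Fin 21, (if tl e = v then X (ea e) - X (eb e) else 0) =
      ∑ e : Fin 21, (if hd e = v then X (ea e) - X (eb e) else 0) := by
  fin_cases v <;> simp [Fin.sum_univ_succ, tl, hd, ea, eb] <;> ring

/-- the flow given by points of the plane -/
def fl (X Y : ℕ → ℝ) (e : Fin 21) : Fin 2 → ℝ := ![X (ea e) - X (eb e), Y (ea e) - Y (eb e)]

theorem fl_cons (X Y : ℕ → ℝ) : IsConserved D0 (fl X Y) := by
  intro v
  funext i
  rw [Finset.sum_apply, Finset.sum_apply, Finset.sum_filter, Finset.sum_filter]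
  fin_cases i
  · have h : ∀ e, fl X Y e ⟨0, by norm_num⟩ = X (ea e) - X (eb e) := fun _ => rfl
    have := dual_cons X v
    simp only [h, D0]
    convert this
  · have h : ∀ e, fl X Y e ⟨1, by norm_num⟩ = Y (ea e) - Y (eb e) := fun _ => rfl
    have := dual_cons Y v
    simp only [h, D0]
    convert this

theorem norm_fin (q : ℝ≥0∞) (hq : q ≠ ∞) (hq2 : 2 ≤ q) (x : Fin 2 → ℝ) :
    ‖(WithLp.toLp q x : PiLp q (fun _ : Fin 2 => ℝ))‖ = Nq q.toReal (x 0) (x 1) := by
  have h : 0 < q.toReal := by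
    apply ENNReal.toReal_pos _ hq
    intro h0
    rw [h0] at hq2
    simp at hq2
  rw [PiLp.norm_eq_sum h, Fin.sum_univ_two]
  rfl

theorem norm_top (x : Fin 2 → ℝ) :
    ‖(WithLp.toLp ∞ x : PiLp ∞ (fun _ : Fin 2 => ℝ))‖ = max |x 0| |x 1| := by
  rw [PiLp.norm_eq_ciSup]
  apply le_antisymm
  · apply ciSup_le
    intro i
    fin_cases i
    · exact le_max_left _ _
    · exact le_max_right _ _
  · apply max_le
    · exact le_ciSup (f := fun i => ‖x i‖) (Set.finite_range _).bddAbove 0
    · exact le_ciSup (f := fun i => ‖x i‖) (Set.finite_range _).bddAbove 1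

/-- a proper 4-colouring of the dual graph -/
noncomputable def c4x : ℕ → ℝ := fun n => ((([0, 1, 0, 1, 0, 1, 1, 0, 1, 1] : List ℕ).getD n 0 : ℕ) : ℝ)

/-- a proper 4-colouring of the dual graph -/
noncomputable def c4y : ℕ → ℝ := fun n => ((([0, 0, 0, 0, 1, 0, 0, 1, 1, 1] : List ℕ).getD n 0 : ℕ) : ℝ)

theorem c4_vals (e : Fin 21) : (|c4x (ea e) - c4x (eb e)| = 0 ∧ |c4y (ea e) - c4y (eb e)| = 1) ∨
    (|c4x (ea e) - c4x (eb e)| = 1 ∧ |c4y (ea e) - c4y (eb e)| = 0) ∨
    (|c4x (ea e) - c4x (eb e)| = 1 ∧ |c4y (ea e) - c4y (eb e)| = 1) := by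
  fin_cases e <;> simp [c4x, c4y, ea, eb]

theorem c4_ne (e : Fin 21) (e0 : c4x (ea e) - c4x (eb e) = 0) (e1 : c4y (ea e) - c4y (eb e) = 0) :
    False := by
  rcases c4_vals e with ⟨_, b⟩ | ⟨a, _⟩ | ⟨a, _⟩
  · rw [e1] at b
    norm_num at b
  · rw [e0] at a
    norm_num at a
  · rw [e0] at a
    norm_num at a

/-- the intervals cover everything between `s` and `t` -/
def chain (t : ℕ) : List Iv → ℕ → Bool
  | [], s => decide (t ≤ s)
  | v :: l, s => decide (v.a1 ≤ s) && chain t l v.a2

theorem chain_sound (t : ℕ) (x : ℝ) (hx : x ≤ t) : ∀ (l : List Iv) (s : ℕ), chain t l s = true →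
    (s : ℝ) < x → ∃ v ∈ l, (v.a1 : ℝ) ≤ x ∧ x ≤ v.a2 := by
  intro l
  induction l with
  | nil =>
    intro s h hs
    have h1 : t ≤ s := of_decide_eq_true h
    have h2 : (t : ℝ) ≤ s := by exact_mod_cast h1
    linarith
  | cons v l ih =>
    intro s h hs
    unfold chain at h
    rw [Bool.and_eq_true, decide_eq_true_eq] at h
    have h2 : (v.a1 : ℝ) ≤ s := by exact_mod_cast h.1
    by_cases hc : x ≤ v.a2
    · exact ⟨v, List.mem_cons_self, by linarith, hc⟩
    · push Not at hc
      obtain ⟨w, hw, h3⟩ := ih v.a2 h.2 hc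
      exact ⟨w, List.mem_cons_of_mem _ hw, h3⟩

theorem chain_ivs : chain 5100 ivs 2000 = true := by decide +kernel

theorem iv0_mem : iv0 ∈ ivs := List.mem_cons_self

theorem isNZF_of (q : ℝ≥0∞) (r : ℝ) (X Y : ℕ → ℝ)
    (h : ∀ e, 1 ≤ ‖(WithLp.toLp q (fl X Y e) : PiLp q (fun _ : Fin 2 => ℝ))‖ ∧
      ‖(WithLp.toLp q (fl X Y e) : PiLp q (fun _ : Fin 2 => ℝ))‖ ≤ r - 1)
    (h0 : ∀ e, fl X Y e ≠ 0) : IsNZF r q D0 (fl X Y) :=
  ⟨h0, fl_cons X Y, h⟩

theorem exists_upper (q : ℝ≥0∞) (hq : 2 ≤ q) :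
    ∃ (D : Orientation G0) (f : Fin 21 → Fin 2 → ℝ), IsNZF (2683 / 1250) q D f := by
  by_cases htop : q = ∞
  · subst htop
    refine ⟨D0, fl c4x c4y, isNZF_of _ _ _ _ ?_ ?_⟩
    · intro e
      rw [norm_top]
      have e0 : fl c4x c4y e 0 = c4x (ea e) - c4x (eb e) := rfl
      have e1 : fl c4x c4y e 1 = c4y (ea e) - c4y (eb e) := rfl
      rw [e0, e1]
      rcases c4_vals e with ⟨a, b⟩ | ⟨a, b⟩ | ⟨a, b⟩ <;> rw [a, b] <;> norm_num
    · intro e he
      have e0 : c4x (ea e) - c4x (eb e) = 0 := congrFun he 0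
      have e1 : c4y (ea e) - c4y (eb e) = 0 := congrFun he 1
      exact c4_ne e e0 e1
  · have hq2 : (2 : ℝ) ≤ q.toReal := by
      have := ENNReal.toReal_mono htop hq
      simpa using this
    by_cases hbig : (51 / 10 : ℝ) ≤ q.toReal
    · refine ⟨D0, fl c4x c4y, isNZF_of _ _ _ _ ?_ ?_⟩
      · intro e
        rw [norm_fin q htop hq]
        have e0 : fl c4x c4y e 0 = c4x (ea e) - c4x (eb e) := rfl
        have e1 : fl c4x c4y e 1 = c4y (ea e) - c4y (eb e) := rfl
        rw [e0, e1]
        unfold Nq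
        generalize q.toReal = t at hq2 hbig
        have ht : t ≠ 0 := by linarith
        have h2 : (2 : ℝ) ^ (1 / t) ≤ 1433 / 1250 := by
          have k1 : (2 : ℝ) ≤ (1433 / 1250 : ℝ) ^ t := by
            have k2 : (2 : ℝ) ≤ (1433 / 1250 : ℝ) ^ (((51 : ℕ) : ℝ) / ((10 : ℕ) : ℝ)) :=
              le_rpow_of_pow_le (by norm_num) (by norm_num) (by norm_num) (by norm_num)
            refine k2.trans (Real.rpow_le_rpow_of_exponent_le (by norm_num) ?_)
            push_cast
            exact hbig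
          calc (2 : ℝ) ^ (1 / t) ≤ ((1433 / 1250 : ℝ) ^ t) ^ (1 / t) :=
                Real.rpow_le_rpow (by norm_num) k1 (by positivity)
            _ = 1433 / 1250 := by
                rw [← Real.rpow_mul (by norm_num), mul_one_div_cancel ht, Real.rpow_one]
        have h3 : (1 : ℝ) ≤ 2 ^ (1 / t) := Real.one_le_rpow (by norm_num) (by positivity)
        rcases c4_vals e with ⟨a, b⟩ | ⟨a, b⟩ | ⟨a, b⟩ <;> rw [a, b]
        · rw [Real.zero_rpow ht, Real.one_rpow, zero_add, Real.one_rpow]
          norm_num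
        · rw [Real.zero_rpow ht, Real.one_rpow, add_zero, Real.one_rpow]
          norm_num
        · rw [Real.one_rpow]
          have : (1 : ℝ) + 1 = 2 := by norm_num
          rw [this]
          exact ⟨h3, by linarith⟩
      · intro e he
        have e0 : c4x (ea e) - c4x (eb e) = 0 := congrFun he 0
        have e1 : c4y (ea e) - c4y (eb e) = 0 := congrFun he 1
        exact c4_ne e e0 e1
    · push Not at hbig
      have hcover : ∃ v ∈ ivs, (v.a1 : ℝ) ≤ 1000 * q.toReal ∧ 1000 * q.toReal ≤ v.a2 := by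
        rcases eq_or_lt_of_le hq2 with h2 | h2
        · refine ⟨iv0, iv0_mem, ?_, ?_⟩
          · rw [← h2]
            have : iv0.a1 = 2000 := rfl
            rw [this]
            norm_num
          · rw [← h2]
            have : iv0.a2 = 2009 := rfl
            rw [this]
            norm_num
        · exact chain_sound 5100 _ (by push_cast; linarith) ivs 2000 chain_ivs
            (by push_cast; linarith)
      obtain ⟨v, hv, hv1, hv2⟩ := hcover
      have hs := iv_sound 1000 1048576 1073741824 (by norm_num) (by norm_num) (by norm_num) v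
        (ivs_ok v hv) q.toReal (by push_cast; exact hv1) (by push_cast; exact hv2)
      refine ⟨D0, fl (cX 1048576 v) (cY 1048576 v), isNZF_of _ _ _ _ ?_ ?_⟩
      · intro e
        rw [norm_fin q htop hq]
        obtain ⟨g1, g2⟩ := hs _ (eh_mem e)
        exact ⟨g1, by
          have : fl (cX 1048576 v) (cY 1048576 v) e 0 = cX 1048576 v (ea e) - cX 1048576 v (eb e) := rfl
          have h' : fl (cX 1048576 v) (cY 1048576 v) e 1 = cY 1048576 v (ea e) - cY 1048576 v (eb e) := rfl
          rw [this, h']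
          linarith⟩
      · intro e he
        obtain ⟨g1, _⟩ := hs _ (eh_mem e)
        have e0 : cX 1048576 v (ea e) - cX 1048576 v (eb e) = 0 := congrFun he 0
        have e1 : cY 1048576 v (ea e) - cY 1048576 v (eb e) = 0 := congrFun he 1
        simp only at g1
        rw [e0, e1] at g1
        unfold Nq at g1
        have ht : q.toReal ≠ 0 := by linarith
        rw [abs_zero, Real.zero_rpow ht, add_zero, Real.zero_rpow (by positivity)] at g1
        norm_num at g1

theorem upper (q : ℝ≥0∞) (hq : 2 ≤ q) : flowIndex G0 2 q ≤ 2683 / 1250 := by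
  obtain ⟨D, f, h⟩ := exists_upper q hq
  apply csInf_le
  · exact ⟨2, fun r hr => hr.1⟩
  · exact ⟨by norm_num, D, f, h⟩

theorem lower_index : 4293 / 2000 ≤ flowIndex G0 2 (9 / 5) := by
  apply le_csInf
  · refine ⟨3, by norm_num, D0, fl c4x c4y, isNZF_of _ _ _ _ ?_ ?_⟩
    · intro e
      rw [norm_95]
      have e0 : fl c4x c4y e 0 = c4x (ea e) - c4x (eb e) := rfl
      have e1 : fl c4x c4y e 1 = c4y (ea e) - c4y (eb e) := rfl
      rw [e0, e1]
      unfold nrm
      have h2 : (2 : ℝ) ^ (5 / 9 : ℝ) ≤ 2 := by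
        calc (2 : ℝ) ^ (5 / 9 : ℝ) ≤ (2 : ℝ) ^ (1 : ℝ) :=
              Real.rpow_le_rpow_of_exponent_le (by norm_num) (by norm_num)
          _ = 2 := Real.rpow_one 2
      have h3 : (1 : ℝ) ≤ 2 ^ (5 / 9 : ℝ) := Real.one_le_rpow (by norm_num) (by norm_num)
      rcases c4_vals e with ⟨a, b⟩ | ⟨a, b⟩ | ⟨a, b⟩ <;> rw [a, b]
      · rw [Real.zero_rpow (by norm_num), Real.one_rpow, zero_add, Real.one_rpow]
        norm_num
      · rw [Real.zero_rpow (by norm_num), Real.one_rpow, add_zero, Real.one_rpow]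
        norm_num
      · rw [Real.one_rpow]
        have : (1 : ℝ) + 1 = 2 := by norm_num
        rw [this]
        exact ⟨h3, by linarith⟩
    · intro e he
      have e0 : c4x (ea e) - c4x (eb e) = 0 := congrFun he 0
      have e1 : c4y (ea e) - c4y (eb e) = 0 := congrFun he 1
      exact c4_ne e e0 e1
  · rintro r ⟨_, D, f, h⟩
    exact lower r D f h

/-- The graph has no parallel edges. -/
theorem G0_simple : Function.Injective G0.ends := by
  intro a b h
  have key : ∀ a b : Fin 21, s(tl a, hd a) = s(tl b, hd b) → a = b := by decide +kernel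
  exact key a b h

/-- **The duality of flow indices fails.**  There is a bridgeless simple graph `G` with 13 vertices
and 21 edges such that `φ_{2,q}(G) ≤ 2.1464` for all `q ∈ [2, ∞]`, but `φ_{2,9/5}(G) ≥ 2.1465`.
In particular (a) fails for `d = 2` and `p = 9/5`. -/
theorem result : ∃ G : Multigraph (Fin 13) (Fin 21), G.Bridgeless ∧ Function.Injective G.ends ∧
    (∀ q : ℝ≥0∞, 2 ≤ q → flowIndex G 2 q ≤ 2683 / 1250) ∧
    4293 / 2000 ≤ flowIndex G 2 (9 / 5) :=
  ⟨G0, G0_bridgeless, G0_simple, upper, lower_index⟩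

/-- The statement posed as the open problem: for all bridgeless `G` and all `d ≥ 2`, (a) and (b)
hold. -/
def DualityStatement : Prop :=
  ∀ (V E : Type) [Fintype V] [Fintype E] (G : Multigraph V E), G.Bridgeless → ∀ d : ℕ, 2 ≤ d →
    (∀ p : ℝ≥0∞, 1 ≤ p → p ≤ 2 → ∃ q : ℝ≥0∞, 2 ≤ q ∧ flowIndex G d p = flowIndex G d q) ∧
    (∀ q : ℝ≥0∞, 2 ≤ q → ∃ p : ℝ≥0∞, 1 ≤ p ∧ p ≤ 2 ∧ flowIndex G d p = flowIndex G d q)

/-- Consequence of `result`: the statement is false. -/
theorem not_dualityStatement : ¬ DualityStatement := by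
  intro h
  obtain ⟨G, hG, _, h1, h2⟩ := result
  obtain ⟨q, hq, he⟩ := (h (Fin 13) (Fin 21) G hG 2 le_rfl).1 (9 / 5)
    (by
      rw [ENNReal.le_div_iff_mul_le (by norm_num) (by norm_num)]
      norm_num)
    (by
      apply ENNReal.div_le_of_le_mul
      norm_num)
  have h3 := h1 q hq
  rw [he] at h2
  linarith

end Pool.Agent.Results.MP_fd4632_co.DualityFails
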